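import Mathlib

set_option autoImplicit false
open Filter Topology Set BoundedContinuousFunction

namespace Pool.Agent.H.MP_550623_an

noncomputable def w (j n : ℕ) : ℝ := if n ≤ j then (1 / 2) ^ n else (1 / 2) ^ (n - (j + 1))

lemma w_pos (j n : ℕ) : 0 < w j n := by unfold w; split_ifs <;> positivity

lemma w_le (j n : ℕ) : w j n ≤ 2 * w j (n + 1) := by
  unfold w
  split_ifs with h1 h2 h2
  · rw [pow_succ]; linarith
  · rw [show n + 1 - (j + 1) = 0 by omega]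
    have : (1 / 2 : ℝ) ^ n ≤ 1 := pow_le_one₀ (by norm_num) (by norm_num)
    linarith
  · omega
  · rw [show n + 1 - (j + 1) = n - (j + 1) + 1 by omega, pow_succ]; linarith

lemma w_le' (j n : ℕ) : w j n ≤ 2 ^ (j + 1) * (1 / 2) ^ n := by
  unfold w
  split_ifs with h
  · exact le_mul_of_one_le_left (by positivity) (one_le_pow₀ (by norm_num))
  · obtain ⟨t, rfl⟩ : ∃ t, n = j + 1 + t := ⟨n - (j + 1), by omega⟩
    rw [Nat.add_sub_cancel_left, pow_add (1 / 2 : ℝ), ← mul_assoc, ← mul_pow]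
    norm_num

lemma growth (k : ℕ) : ∃ M : ℝ, 0 ≤ M ∧ ∀ n : ℕ, (1 / 2) ^ n * ((n : ℝ) + 1) ^ k ≤ M := by
  obtain ⟨M, hM⟩ := (tendsto_pow_const_mul_const_pow_of_abs_lt_one k
    (r := 1 / 2) (by rw [abs_of_pos] <;> norm_num)).bddAbove_range
  refine ⟨2 * M, ?_, fun n => ?_⟩
  · have := hM ⟨1, rfl⟩
    simp at this
    linarith
  · have := hM ⟨n + 1, rfl⟩
    simp only [pow_succ] at this
    push_cast at this
    linarith

variable {𝕂 : Type} [RCLike 𝕂]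

def c (𝕂 : Type) [RCLike 𝕂] (i n : ℕ) : 𝕂 := (n.choose i : ℕ)

lemma c_le (i n : ℕ) : ‖c 𝕂 i n‖ ≤ ((n : ℝ) + 1) ^ i := by
  rw [c, RCLike.norm_natCast]
  have : (n.choose i : ℝ) ≤ (n : ℝ) ^ i := by exact_mod_cast Nat.choose_le_pow n i
  exact this.trans (pow_le_pow_left₀ (by positivity) (by linarith) _)

lemma c_succ (i n : ℕ) : c 𝕂 (i + 1) (n + 1) = c 𝕂 i n + c 𝕂 (i + 1) n := by
  simp [c, Nat.choose_succ_succ]

def V (𝕂 : Type) [RCLike 𝕂] (m : ℕ) : Submodule 𝕂 (ℕ → 𝕂) :=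
  Submodule.span 𝕂 {f | ∃ i < m, f = c 𝕂 i}

lemma c_mem {i m : ℕ} (h : i < m) : c 𝕂 i ∈ V 𝕂 m := Submodule.subset_span ⟨i, h, rfl⟩

lemma V_mono {m k : ℕ} (h : m ≤ k) : V 𝕂 m ≤ V 𝕂 k :=
  Submodule.span_mono fun _ ⟨i, hi, e⟩ => ⟨i, hi.trans_le h, e⟩

lemma V_zero {f : ℕ → 𝕂} (h : f ∈ V 𝕂 0) : f = 0 := by simpa [V] using h

lemma V_diff {m : ℕ} {f : ℕ → 𝕂} (h : f ∈ V 𝕂 (m + 1)) : (fun n => f (n + 1) - f n) ∈ V 𝕂 m := by
  induction h using Submodule.span_induction with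
  | mem f hf =>
    obtain ⟨_ | i, hi, rfl⟩ := hf
    · convert (V 𝕂 m).zero_mem using 1
      funext n; simp [c]
    · convert c_mem (𝕂 := 𝕂) (show i < m by omega) using 1
      funext n; rw [c_succ]; ring
  | zero => convert (V 𝕂 m).zero_mem using 1; funext n; simp
  | add f g _ _ hf hg => convert (V 𝕂 m).add_mem hf hg using 1; funext n; simp; ring
  | smul a f _ hf => convert (V 𝕂 m).smul_mem a hf using 1; funext n; simp; ring

lemma V_mul {m : ℕ} (a : 𝕂) {f : ℕ → 𝕂} (h : f ∈ V 𝕂 m) :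
    (fun n : ℕ => f n * (1 - n / a)) ∈ V 𝕂 (m + 1) := by
  induction h using Submodule.span_induction with
  | mem f hf =>
    obtain ⟨i, hi, rfl⟩ := hf
    convert (V 𝕂 (m + 1)).sub_mem ((V 𝕂 (m + 1)).smul_mem (1 - i / a) (c_mem (by omega : i < m + 1)))
      ((V 𝕂 (m + 1)).smul_mem ((i + 1) / a) (c_mem (by omega : i + 1 < m + 1))) using 1
    funext n
    have h : n.choose (i + 1) * (i + 1) + n.choose i * i = n.choose i * n := by
      rw [Nat.choose_succ_right_eq]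
      rcases le_or_gt i n with h | h
      · rw [← mul_add, Nat.sub_add_cancel h]
      · simp [Nat.choose_eq_zero_of_lt h]
    have h : (c 𝕂 (i + 1) n) * (i + 1) + c 𝕂 i n * i = c 𝕂 i n * n := by
      unfold c; exact_mod_cast h
    simp only [Pi.sub_apply, Pi.smul_apply, smul_eq_mul]
    linear_combination (1 / a) * h
  | zero => convert (V 𝕂 (m + 1)).zero_mem using 1; funext n; simp
  | add f g _ _ hf hg => convert (V 𝕂 (m + 1)).add_mem hf hg using 1; funext n; simp; ring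
  | smul b f _ hf => convert (V 𝕂 (m + 1)).smul_mem b hf using 1; funext n; simp; ring

noncomputable def B (𝕂 : Type) [RCLike 𝕂] (i j n : ℕ) : 𝕂 :=
  c 𝕂 i n * (1 - (n : 𝕂) / ((j + 1 : ℕ) : 𝕂)) ^ (i + 1)

lemma B_mem (i j : ℕ) : B 𝕂 i j ∈ V 𝕂 (i + 1 + (i + 1)) := by
  have : ∀ k, (fun n : ℕ => c 𝕂 i n * (1 - (n : 𝕂) / ((j + 1 : ℕ) : 𝕂)) ^ k) ∈
      V 𝕂 (i + 1 + k) := by
    intro k
    induction k with
    | zero => simpa using c_mem (Nat.lt_succ_self i)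
    | succ k ih =>
      rw [← add_assoc]
      convert V_mul ((j + 1 : ℕ) : 𝕂) ih using 1
      funext n; ring
  exact this _

lemma B_est (i : ℕ) : ∃ C : ℝ, 0 ≤ C ∧ ∀ j n : ℕ,
    w j n * ‖B 𝕂 i j n - if n ≤ j then c 𝕂 i n else 0‖ ≤ C / (j + 1) := by
  obtain ⟨M, hM0, hM⟩ := growth (i + (i + 1))
  refine ⟨(i + 1) * 2 ^ i * M, by positivity, fun j n => ?_⟩
  have hj : (0 : ℝ) < j + 1 := by positivity
  have e : (1 - (n : 𝕂) / ((j + 1 : ℕ) : 𝕂)) = ((1 - (n : ℝ) / (j + 1) : ℝ) : 𝕂) := by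
    push_cast; rfl
  have h2 : (1 : ℝ) ≤ 2 ^ i := one_le_pow₀ (by norm_num)
  unfold w B
  split_ifs with h
  · have h1 : (n : ℝ) / (j + 1) ≤ 1 := by
      rw [div_le_one hj]; exact_mod_cast h.trans (Nat.le_succ j)
    have h0 : 0 ≤ (n : ℝ) / (j + 1) := by positivity
    have b1 := one_add_mul_le_pow (show -2 ≤ -((n : ℝ) / (j + 1)) by linarith) (i + 1)
    have b2 : (1 - (n : ℝ) / (j + 1)) ^ (i + 1) ≤ 1 := pow_le_one₀ (by linarith) (by linarith)
    rw [← mul_sub_one, norm_mul, e, ← RCLike.ofReal_pow, ← RCLike.ofReal_one (K := 𝕂),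
      ← RCLike.ofReal_sub,
      RCLike.norm_ofReal, abs_of_nonpos (by linarith)]
    rw [← sub_eq_add_neg] at b1
    push_cast at b1
    have b3 : -((1 - (n : ℝ) / (j + 1)) ^ (i + 1) - 1) ≤ (i + 1) * ((n + 1) ^ (i + 1) / (j + 1)) := by
      have : (n : ℝ) / (j + 1) ≤ (n + 1) ^ (i + 1) / (j + 1) := by
        gcongr
        exact (by linarith : (n : ℝ) ≤ n + 1).trans
          (le_self_pow₀ (by linarith [Nat.cast_nonneg (α := ℝ) n]) (by omega))
      nlinarith [Nat.cast_nonneg (α := ℝ) i]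
    calc _ ≤ (1 / 2 : ℝ) ^ n * ((n + 1) ^ i * ((i + 1) * ((n + 1) ^ (i + 1) / (j + 1)))) := by
          gcongr
          · linarith
          · exact c_le i n
      _ = (i + 1) * 1 * ((1 / 2) ^ n * (n + 1) ^ (i + (i + 1))) / (j + 1) := by ring
      _ ≤ _ := by gcongr; exact hM n
  · obtain ⟨t, rfl⟩ : ∃ t, n = j + 1 + t := ⟨n - (j + 1), by omega⟩
    have e2 : (1 - ((j + 1 + t : ℕ) : ℝ) / (j + 1)) = -(t / (j + 1)) := by
      push_cast; field_simp; ring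
    rw [Nat.add_sub_cancel_left, sub_zero, norm_mul, e, norm_pow, RCLike.norm_ofReal, e2, abs_neg,
      abs_of_nonneg (by positivity)]
    have b1 : ((j + 1 + t : ℕ) : ℝ) + 1 ≤ 2 * (j + 1) * (t + 1) := by
      push_cast; nlinarith [Nat.cast_nonneg (α := ℝ) j, Nat.cast_nonneg (α := ℝ) t]
    calc _ ≤ (1 / 2 : ℝ) ^ t * ((2 * (j + 1) * (t + 1)) ^ i * ((t + 1) / (j + 1)) ^ (i + 1)) := by
          gcongr
          · exact (c_le i _).trans (pow_le_pow_left₀ (by positivity) b1 _)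
          · linarith
      _ = 1 * 2 ^ i * ((1 / 2) ^ t * (t + 1) ^ (i + (i + 1))) / (j + 1) := by
          rw [mul_pow, mul_pow, div_pow ((t : ℝ) + 1)]; field_simp; ring
      _ ≤ _ := by
          gcongr
          · linarith [Nat.cast_nonneg (α := ℝ) i]
          · exact hM t

abbrev E (𝕂 : Type) [RCLike 𝕂] : Type := (ℕ × ℕ) →ᵇ 𝕂

lemma exists_S : ∃ S : E 𝕂 →L[𝕂] E 𝕂, ∀ y j n,
    S y (j, n) = ((w j n / w j (n + 1) : ℝ) : 𝕂) * y (j, n + 1) := by
  have hb : ∀ (y : E 𝕂) (p : ℕ × ℕ),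
      ‖((w p.1 p.2 / w p.1 (p.2 + 1) : ℝ) : 𝕂) * y (p.1, p.2 + 1)‖ ≤ 2 * ‖y‖ := fun y p => by
    rw [norm_mul, RCLike.norm_ofReal, abs_of_pos (div_pos (w_pos _ _) (w_pos _ _))]
    exact mul_le_mul ((div_le_iff₀ (w_pos _ _)).2 (w_le _ _)) (y.norm_coe_le_norm _)
      (norm_nonneg _) (by norm_num)
  let L : E 𝕂 →ₗ[𝕂] E 𝕂 :=
    { toFun := fun y => ofNormedAddCommGroupDiscrete _ _ (hb y)
      map_add' := fun x y => by ext p; simp [mul_add]
      map_smul' := fun a x => by ext p; simp; ring }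
  exact ⟨L.mkContinuous 2 fun y => (norm_le (by positivity)).2 (hb y), fun y j n => rfl⟩

def Rep (y : E 𝕂) (f : ℕ → ℕ → 𝕂) : Prop := ∀ j n, y (j, n) = (w j n : 𝕂) * f j n

lemma exists_a : ∃ a : ℕ → ℕ → E 𝕂, ∀ j i, Rep (a j i) (Pi.single j (c 𝕂 i)) := by
  have : ∀ j i, ∃ a : E 𝕂, Rep a (Pi.single j (c 𝕂 i)) := fun j i => by
    obtain ⟨M, hM0, hM⟩ := growth i
    refine ⟨ofNormedAddCommGroupDiscrete (fun p : ℕ × ℕ => (w p.1 p.2 : 𝕂) *
      (Pi.single j (c 𝕂 i) : ℕ → ℕ → 𝕂) p.1 p.2) (2 ^ (j + 1) * M) fun p => ?_, fun _ _ => rfl⟩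
    by_cases h : p.1 = j
    · rw [h, Pi.single_eq_same, norm_mul, RCLike.norm_ofReal, abs_of_pos (w_pos _ _)]
      refine (mul_le_mul (w_le' _ _) (c_le _ _) (norm_nonneg _) (by positivity)).trans ?_
      rw [mul_assoc]
      exact mul_le_mul_of_nonneg_left (hM _) (by positivity)
    · rw [Pi.single_eq_of_ne h]; simp; positivity
  choose a ha using this
  exact ⟨a, ha⟩

lemma exists_b : ∃ b : ℕ → E 𝕂, ∀ i, Rep (b i) (B 𝕂 i) := by
  have : ∀ i, ∃ b : E 𝕂, Rep b (B 𝕂 i) := fun i => by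
    obtain ⟨M, hM0, hM⟩ := growth i
    obtain ⟨C, hC0, hC⟩ := B_est (𝕂 := 𝕂) i
    refine ⟨ofNormedAddCommGroupDiscrete (fun p : ℕ × ℕ => (w p.1 p.2 : 𝕂) * B 𝕂 i p.1 p.2)
      (C + M) fun ⟨j, n⟩ => ?_, fun _ _ => rfl⟩
    have h1 := (hC j n).trans (div_le_self hC0 (by linarith [Nat.cast_nonneg (α := ℝ) j]))
    have h2 : w j n * ‖if n ≤ j then c 𝕂 i n else 0‖ ≤ M := by
      unfold w
      split_ifs
      · exact (mul_le_mul_of_nonneg_left (c_le _ _) (by positivity)).trans (hM n)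
      · simpa using hM0
    have h3 := mul_le_mul_of_nonneg_left (norm_le_norm_sub_add (B 𝕂 i j n)
      (if n ≤ j then c 𝕂 i n else 0)) (w_pos j n).le
    rw [norm_mul, RCLike.norm_ofReal, abs_of_pos (w_pos _ _)]
    linarith
  choose b hb using this
  exact ⟨b, hb⟩

lemma Rep.ext {x y : E 𝕂} {f : ℕ → ℕ → 𝕂} (hx : Rep x f) (hy : Rep y f) : x = y := by
  ext ⟨j, n⟩; rw [hx, hy]

lemma rows {a : ℕ → ℕ → E 𝕂} (ha : ∀ j i, Rep (a j i) (Pi.single j (c 𝕂 i))) {A : Submodule 𝕂 (E 𝕂)}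
    (hA : ∀ j i, a j i ∈ A) {y : E 𝕂} {f : ℕ → ℕ → 𝕂} (hy : Rep y f) {m : ℕ} (hf : ∀ j, f j ∈ V 𝕂 m)
    {C : ℝ} (hC : ∀ j n, w j n * ‖f j n‖ ≤ C / (j + 1)) : y ∈ A.topologicalClosure := by
  have h1 : ∀ j, ∀ g ∈ V 𝕂 m, ∃ z ∈ A, Rep z (Pi.single j g) := by
    intro j g hg
    induction hg using Submodule.span_induction with
    | mem f hf => obtain ⟨i, -, rfl⟩ := hf; exact ⟨_, hA j i, ha j i⟩
    | zero => exact ⟨0, A.zero_mem, fun _ _ => by simp⟩
    | add f g _ _ hf hg =>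
      obtain ⟨x, hx, hx'⟩ := hf
      obtain ⟨z, hz, hz'⟩ := hg
      exact ⟨x + z, A.add_mem hx hz, fun k n => by
        rw [BoundedContinuousFunction.add_apply, hx', hz', Pi.single_add]; simp [mul_add]⟩
    | smul s f _ hf =>
      obtain ⟨x, hx, hx'⟩ := hf
      exact ⟨s • x, A.smul_mem s hx, fun k n => by
        rw [coe_smul, Pi.single_smul]; simp [hx' k n]; ring⟩
  choose z hz hz' using fun j => h1 j _ (hf j)
  have hC0 : 0 ≤ C := by simpa using (mul_nonneg (w_pos 0 0).le (norm_nonneg _)).trans (hC 0 0)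
  refine mem_closure_of_tendsto (f := fun J => ∑ j ∈ Finset.range J, z j) (b := atTop) ?_
    (Eventually.of_forall fun J => A.sum_mem fun j _ => hz j)
  rw [tendsto_iff_norm_sub_tendsto_zero]
  refine squeeze_zero (fun _ => norm_nonneg _) (fun J => ?_)
    (by simpa using tendsto_one_div_add_atTop_nhds_zero_nat.const_mul C)
  refine (norm_le (by positivity)).2 fun ⟨j, n⟩ => ?_
  simp only [coe_sub, Pi.sub_apply, coe_sum, Finset.sum_apply, hz' _ j n, hy j n,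
    ← Finset.mul_sum, ← mul_sub]
  by_cases h : j < J
  · rw [Finset.sum_eq_single j (fun k _ hk => by rw [Pi.single_eq_of_ne hk.symm]; rfl)
      (fun h' => absurd (Finset.mem_range.2 h) h')]
    simp only [Pi.single_eq_same, sub_self, mul_zero, norm_zero]
    positivity
  · rw [Finset.sum_eq_zero fun k hk => by
      rw [Pi.single_eq_of_ne (by have := Finset.mem_range.1 hk; omega)]; rfl]
    rw [zero_sub, norm_mul, norm_neg, RCLike.norm_ofReal, abs_of_pos (w_pos _ _)]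
    refine (hC j n).trans ?_
    rw [← div_eq_mul_inv]
    gcongr
    exact_mod_cast not_lt.1 h

lemma rem_est (i : ℕ) (g : ℕ → ℕ → 𝕂) (d : ℕ → 𝕂) (hd : ∀ n, c 𝕂 i (n + 1) = d n + c 𝕂 i n)
    {D : ℝ} (hg : ∀ j n : ℕ, w j n * ‖g j n - if n ≤ j then d n else 0‖ ≤ D / (j + 1)) :
    ∃ C : ℝ, ∀ j n : ℕ, w j n * ‖B 𝕂 i j (n + 1) - B 𝕂 i j n - g j n‖ ≤ C / (j + 1) := by
  obtain ⟨C, hC0, hC⟩ := B_est (𝕂 := 𝕂) i
  obtain ⟨M, hM0, hM⟩ := growth (i + 1)
  refine ⟨2 * C + C + D + 2 * M, fun j n => ?_⟩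
  have hj : (0 : ℝ) < j + 1 := by positivity
  have h0 := mul_le_mul_of_nonneg_right (w_le j n) (norm_nonneg
    (B 𝕂 i j (n + 1) - if n + 1 ≤ j then c 𝕂 i (n + 1) else 0))
  have h1 := hC j (n + 1)
  have h2 := hC j n
  have h3 := hg j n
  have h4 : w j n * ‖(if n + 1 ≤ j then c 𝕂 i (n + 1) else 0) - (if n ≤ j then c 𝕂 i n else 0) -
      if n ≤ j then d n else 0‖ ≤ 2 * M / (j + 1) := by
    split_ifs with a b b
    · rw [hd, add_sub_cancel_right, sub_self, norm_zero, mul_zero]; positivity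
    · omega
    · obtain rfl : n = j := by omega
      have : (0 : 𝕂) - c 𝕂 i n - d n = -c 𝕂 i (n + 1) := by rw [hd]; ring
      rw [this, norm_neg, w, if_pos le_rfl, le_div_iff₀ hj]
      have a1 := c_le (𝕂 := 𝕂) i (n + 1)
      have a2 := hM (n + 1)
      rw [pow_succ, pow_succ] at a2
      push_cast at a1 a2
      have a3 : (1 / 2 : ℝ) ^ n * ‖c 𝕂 i (n + 1)‖ * (n + 1) ≤
          (1 / 2) ^ n * (n + 1 + 1) ^ i * (n + 1 + 1) := by gcongr; linarith
      linarith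
    · simp only [sub_self, norm_zero, mul_zero]; positivity
  set p := (if n + 1 ≤ j then c 𝕂 i (n + 1) else 0)
  set q := (if n ≤ j then c 𝕂 i n else 0)
  set r := (if n ≤ j then d n else 0)
  have e : B 𝕂 i j (n + 1) - B 𝕂 i j n - g j n =
      (B 𝕂 i j (n + 1) - p) - (B 𝕂 i j n - q) - (g j n - r) + (p - q - r) := by ring
  have h5 := (norm_add_le _ (p - q - r)).trans (add_le_add_left ((norm_sub_le _ (g j n - r)).trans
    (add_le_add_left (norm_sub_le (B 𝕂 i j (n + 1) - p) (B 𝕂 i j n - q)) _)) _)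
  rw [← e] at h5
  have h6 := mul_le_mul_of_nonneg_left h5 (w_pos j n).le
  simp only [add_div, mul_div_assoc] at *
  linarith

theorem main : ∃ (X : Submodule 𝕂 (E 𝕂)) (T : E 𝕂 →L[𝕂] E 𝕂) (b : E 𝕂), IsClosed (X : Set (E 𝕂)) ∧
    TopologicalSpace.IsSeparable (X : Set (E 𝕂)) ∧ (∀ x ∈ X, T x ∈ X) ∧
    (X : Set (E 𝕂)) ⊆ closure (T '' X) ∧
    (X : Set (E 𝕂)) ⊆ closure {x | x ∈ X ∧ ∃ m, (T ^ (m + 1)) x = 0} ∧ b ∈ X ∧
    ∀ (y : E 𝕂) (N : ℕ), 1 ≤ ‖y‖ + ‖((1 + T) ^ (N + 1)) y - b‖ := by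
  obtain ⟨S, hS⟩ := exists_S (𝕂 := 𝕂)
  obtain ⟨T, hTS⟩ : ∃ T : E 𝕂 →L[𝕂] E 𝕂, 1 + T = S := ⟨S - 1 , add_sub_cancel _ _⟩
  have hTS' : ∀ y p, T y p = S y p - y p := fun y p => by simp [← hTS]
  obtain ⟨a, ha⟩ := exists_a (𝕂 := 𝕂)
  obtain ⟨b, hb⟩ := exists_b (𝕂 := 𝕂)
  have hw : ∀ j n, (w j n : 𝕂) ≠ 0 := fun j n => by exact_mod_cast (w_pos j n).ne'
  have hT : ∀ y f, Rep y f → Rep (T y) fun j n => f j (n + 1) - f j n := fun y f h j n => by
    have := hw j (n + 1)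
    simp only [hTS', hS, h j]
    push_cast
    field_simp
  have hK : ∀ m y f, Rep y f → (∀ j, f j ∈ V 𝕂 m) → (T ^ m) y = 0 := by
    intro m
    induction m with
    | zero => intro y f h hf; ext ⟨j, n⟩; simp [h j n, V_zero (hf j)]
    | succ m ih => intro y f h hf; rw [pow_succ]; exact ih _ _ (hT y f h) fun j => V_diff (hf j)
  have ha0 : ∀ j, T (a j 0) = 0 := fun j => hK 1 _ _ (ha j 0) fun k => by
    by_cases h : k = j
    · rw [h, Pi.single_eq_same]; exact c_mem one_pos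
    · rw [Pi.single_eq_of_ne h]; exact zero_mem _
  have ha1 : ∀ j i, T (a j (i + 1)) = a j i := fun j i => by
    refine Rep.ext ?_ (ha j i)
    convert hT _ _ (ha j (i + 1)) using 1
    funext k n
    by_cases h : k = j
    · rw [h, Pi.single_eq_same, Pi.single_eq_same, c_succ]; ring
    · rw [Pi.single_eq_of_ne h, Pi.single_eq_of_ne h]; simp
  have hb0 : ∀ A : Submodule 𝕂 (E 𝕂), (∀ j i, a j i ∈ A) →
      T (b 0) ∈ A.topologicalClosure := fun A hA => by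
    obtain ⟨C, hC⟩ := rem_est (𝕂 := 𝕂) 0 0 0 (fun n => by simp [c]) (D := 0) (by simp)
    exact rows ha hA (hT _ _ (hb 0)) (fun j => V_diff (B_mem 0 j)) (C := C) (by simpa using hC)
  have hb1 : ∀ A : Submodule 𝕂 (E 𝕂), (∀ j i, a j i ∈ A) → ∀ i,
      T (b (i + 1)) - b i ∈ A.topologicalClosure := fun A hA i => by
    obtain ⟨D, -, hD⟩ := B_est (𝕂 := 𝕂) i
    obtain ⟨C, hC⟩ := rem_est (𝕂 := 𝕂) (i + 1) (B 𝕂 i) (c 𝕂 i) (c_succ i) hD
    refine rows ha hA (f := fun j n => B 𝕂 (i + 1) j (n + 1) - B 𝕂 (i + 1) j n - B 𝕂 i j n)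
      (fun j n => ?_) (fun j => (V 𝕂 (i + 1 + 1 + (i + 1))).sub_mem (V_diff (B_mem (i + 1) j))
        (V_mono (by omega) (B_mem i j))) hC
    rw [coe_sub, Pi.sub_apply, hT _ _ (hb (i + 1)), hb i]; ring
  let G : Set (E 𝕂) := range (fun p : ℕ × ℕ => a p.1 p.2) ∪ range b
  let X0 := Submodule.span 𝕂 G
  have m1 : ∀ j i, a j i ∈ X0 := fun j i => Submodule.subset_span (Or.inl ⟨(j, i), rfl⟩)
  have m2 : ∀ i, b i ∈ X0 := fun i => Submodule.subset_span (Or.inr ⟨i, rfl⟩)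
  have hle := X0.le_topologicalClosure
  have gen : ∀ A : Submodule 𝕂 (E 𝕂), IsClosed (A : Set (E 𝕂)) → (∀ j i, a j i ∈ A) →
      (∀ i, b i ∈ A) → X0.topologicalClosure ≤ A := fun A hA h1 h2 =>
    X0.topologicalClosure_minimal (Submodule.span_le.2 (by
      rintro _ (⟨p, rfl⟩ | ⟨i, rfl⟩); exacts [h1 _ _, h2 _])) hA
  refine ⟨X0.topologicalClosure, T, b 0, X0.isClosed_topologicalClosure,
    (((countable_range _).union (countable_range _)).isSeparable.span).closure, ?_, ?_, ?_,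
    hle (m2 0), fun y N => ?_⟩
  · refine gen (X0.topologicalClosure.comap T.toLinearMap)
      (X0.isClosed_topologicalClosure.preimage T.continuous) (fun j i => ?_) fun i => ?_
    · show T (a j i) ∈ X0.topologicalClosure
      rcases i with _ | i
      · rw [ha0]; exact zero_mem _
      · rw [ha1]; exact hle (m1 j i)
    · show T (b i) ∈ X0.topologicalClosure
      rcases i with _ | i
      · exact hb0 X0 m1
      · simpa using add_mem (hb1 X0 m1 i) (hle (m2 i))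
  · let A := X0.topologicalClosure.map T.toLinearMap
    have h1 : ∀ j i, a j i ∈ A := fun j i => ⟨_, hle (m1 j (i + 1)), ha1 j i⟩
    refine gen A.topologicalClosure A.isClosed_topologicalClosure
      (fun j i => A.le_topologicalClosure (h1 j i)) fun i => ?_
    have h2 : T (b (i + 1)) ∈ A.topologicalClosure :=
      A.le_topologicalClosure ⟨_, hle (m2 (i + 1)), rfl⟩
    simpa using sub_mem h2 (hb1 A h1 i)
  · refine closure_mono fun x hx => ⟨hle hx, ?_⟩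
    have key : ∀ {m k : ℕ} {x : E 𝕂}, m ≤ k → (T ^ m) x = 0 → (T ^ k) x = 0 := by
      intro m k x h hx
      obtain ⟨d, rfl⟩ := Nat.exists_eq_add_of_le' h
      rw [pow_add, mul_apply_eq_comp, hx, map_zero]
    induction hx using Submodule.span_induction with
    | mem x hx =>
      rcases hx with ⟨p, rfl⟩ | ⟨i, rfl⟩
      · refine ⟨p.2, hK _ _ _ (ha p.1 p.2) fun k => ?_⟩
        by_cases h : k = p.1
        · rw [h, Pi.single_eq_same]; exact c_mem (Nat.lt_succ_self _)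
        · rw [Pi.single_eq_of_ne h]; exact zero_mem _
      · exact ⟨_, hK _ _ _ (hb i) (B_mem i)⟩
    | zero => exact ⟨0, map_zero _⟩
    | add x y _ _ hx hy =>
      obtain ⟨m, hm⟩ := hx
      obtain ⟨k, hk⟩ := hy
      exact ⟨m + k, by rw [map_add, key (by omega) hm, key (by omega) hk, add_zero]⟩
    | smul s x _ hx => obtain ⟨m, hm⟩ := hx; exact ⟨m, by rw [map_smul, hm, smul_zero]⟩
  · rw [hTS]
    have h1 : ∀ k n, (S ^ k) y (N, n) = ((w N n / w N (n + k) : ℝ) : 𝕂) * y (N, n + k) := by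
      intro k
      induction k with
      | zero => intro n; simp [hw]
      | succ k ih =>
        intro n
        have := hw N (n + 1)
        rw [pow_succ', mul_apply_eq_comp, hS, ih, add_assoc, add_comm 1 k]
        push_cast
        field_simp
    have h2 : ((S ^ (N + 1)) y - b 0) (N, 0) = y (N, N + 1) - 1 := by
      rw [coe_sub, Pi.sub_apply, h1, hb 0]
      simp [w, B, c]
    have h3 := ((S ^ (N + 1)) y - b 0).norm_coe_le_norm (N, 0)
    have h4 := y.norm_coe_le_norm (N, N + 1)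
    have h5 := norm_sub_le (y (N, N + 1)) (y (N, N + 1) - 1)
    rw [sub_sub_cancel, norm_one] at h5
    rw [h2] at h3
    linarith

end Pool.Agent.H.MP_550623_an
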